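import Pool.Agent.Helper74.DI.St

/-!
# Project DI (MP_26f0da_lc): module E2C, counting the colours
-/

set_option autoImplicit false

namespace Pool.Agent.Helper88.DI

open Pool.Agent.Helper74 Pool.Agent.Helper74.DI
open Pool.Agent.Helper74.NM (NC)

theorem count_cl {G : Type} (φ ψ : G → Option ℕ) (c : ℕ) (b : Bool) (w : List G) :
    (cl φ ψ b w).count (some c) =
      cn (fun b x => decide ((if b then φ x else ψ x) = some c)) b w := by
  induction w generalizing b with
  | nil => rfl
  | cons x w ih =>
    rw [cl, cn, List.count_cons, ih, Nat.add_comm]
    congr 1
    by_cases h : (if b then φ x else ψ x) = some c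
    · simp [h]
    · simp [h]

theorem cn_zero {G : Type} (f : Bool → G → Bool) (h : ∀ b x, f b x = false) (b : Bool)
    (w : List G) : cn f b w = 0 := by
  induction w generalizing b with
  | nil => rfl
  | cons x w ih => simp [cn, ih, h]

theorem hE2C (hMAJ : StMAJ) : StE2C := by
  intro n φ ψ
  classical
  let F : Finset ℕ := ((Finset.univ : Finset (Fin n)).image (fun x => (φ x).getD 0)) ∪
    ((Finset.univ : Finset (Fin n)).image (fun x => (ψ x).getD 0))
  refine ⟨F, fun w => ?_⟩
  rw [hMAJ, cl_length]
  refine and_congr_right fun _ => ?_
  constructor
  · intro h c _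
    have := h c
    rw [count_cl] at this
    exact this
  · intro h c
    rw [count_cl]
    by_cases hc : c ∈ F
    · exact h c hc
    · have h0 : ∀ (b : Bool) (x : Fin n),
          (fun (b : Bool) (x : Fin n) => decide ((if b then φ x else ψ x) = some c)) b x
            = false := by
        intro b x
        have h1 : φ x ≠ some c := by
          intro e
          apply hc
          apply Finset.mem_union_left
          refine Finset.mem_image.2 ⟨x, Finset.mem_univ x, ?_⟩
          simp [e]
        have h2 : ψ x ≠ some c := by
          intro e
          apply hc
          apply Finset.mem_union_right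
          refine Finset.mem_image.2 ⟨x, Finset.mem_univ x, ?_⟩
          simp [e]
        cases b <;> simp [h1, h2]
      rw [cn_zero _ h0]
      simp

end Pool.Agent.Helper88.DI
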